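import Mathlib

set_option autoImplicit false

/-!
# A continuous Bowen function that is not a Walters function modulo weak coboundaries

For every finite alphabet `A` with at least two letters we construct a continuous Bowen function
`φ` on the one-sided full shift `ℕ → A` such that `φ - h` is not a weak coboundary for any
continuous Walters function `h`.  This is the negation of `Wcob + Bow = Wcob + Wal`.
-/

namespace Pool.Agent.Results.MP_3e6e51_an.BowenNotWalters

open Filter Topology

/-! ### Definitions used in the statement -/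

/-- The left shift `σ` on one-sided sequences: `(σ x)_i = x_{i+1}`. -/
def shift {A : Type*} (x : ℕ → A) : ℕ → A := fun i => x (i + 1)

/-- The metric of the problem: `d(x,y) = 2^{-min{i : x_i ≠ y_i}}` if `x ≠ y`, and `d(x,x) = 0`. -/
noncomputable def seqDist {A : Type*} (x y : ℕ → A) : ℝ :=
  open Classical in if x = y then 0 else (1 / 2 : ℝ) ^ sInf {i : ℕ | x i ≠ y i}

/-- The Birkhoff sum `S_n f (x) = ∑_{k<n} f (σ^k x)`. -/
def birkhoff {A : Type*} (f : (ℕ → A) → ℝ) (n : ℕ) (x : ℕ → A) : ℝ :=
  ∑ k ∈ Finset.range n, f (shift^[k] x)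

/-- Walters functions: for every `κ > 0` there is `ε > 0` such that for all `n ≥ 1` and all `x, y`
with `d(σ^k x, σ^k y) < ε` for `0 ≤ k < n` one has `|S_n f(x) - S_n f(y)| < κ`. -/
def IsWalters {A : Type*} (f : (ℕ → A) → ℝ) : Prop :=
  ∀ κ : ℝ, 0 < κ → ∃ ε : ℝ, 0 < ε ∧ ∀ n : ℕ, 1 ≤ n → ∀ x y : ℕ → A,
    (∀ k < n, seqDist (shift^[k] x) (shift^[k] y) < ε) →
      |birkhoff f n x - birkhoff f n y| < κ

/-- Bowen functions: there are `M > 0` and `ε > 0` such that for all `n ≥ 1` and all `x, y`
with `d(σ^k x, σ^k y) < ε` for `0 ≤ k < n` one has `|S_n f(x) - S_n f(y)| ≤ M`. -/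
def IsBowen {A : Type*} (f : (ℕ → A) → ℝ) : Prop :=
  ∃ M : ℝ, 0 < M ∧ ∃ ε : ℝ, 0 < ε ∧ ∀ n : ℕ, 1 ≤ n → ∀ x y : ℕ → A,
    (∀ k < n, seqDist (shift^[k] x) (shift^[k] y) < ε) →
      |birkhoff f n x - birkhoff f n y| ≤ M

/-- The set `Cob` of coboundaries `q ∘ σ - q` with `q` continuous. -/
def Cob (A : Type*) [TopologicalSpace A] : Set C(ℕ → A, ℝ) :=
  {f | ∃ q : C(ℕ → A, ℝ), ∀ x, f x = q (shift x) - q x}

/-- The set `Wcob` of weak coboundaries: the closure of `Cob` in `C(A^ℕ, ℝ)`; as `A^ℕ` is compact
(for finite `A`), the topology of `C(A^ℕ, ℝ)` is that of the sup norm. -/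
def Wcob (A : Type*) [TopologicalSpace A] : Set C(ℕ → A, ℝ) :=
  closure (Cob A)

/-! ### Auxiliary real sequence -/

/-- A bounded, slowly oscillating sequence with `B (2^j) = (-1)^j`. -/
noncomputable def B (n : ℕ) : ℝ := Real.cos (Real.pi * Real.logb 2 n)

lemma abs_B_le (n : ℕ) : |B n| ≤ 1 := Real.abs_cos_le_one _

lemma B_two_pow (j : ℕ) : B (2 ^ j) = (-1) ^ j := by
  unfold B
  have h : Real.logb 2 (((2 ^ j : ℕ) : ℝ)) = j := by
    push_cast
    rw [Real.logb_pow, Real.logb_self_eq_one (by norm_num)]
    simp
  rw [h, mul_comm]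
  exact Real.cos_nat_mul_pi j

lemma B_sub_le {m n : ℕ} (hm : 1 ≤ m) (hmn : m ≤ n) :
    |B n - B m| ≤ Real.pi / Real.log 2 * (((n : ℝ) - m) / m) := by
  have hm' : (0 : ℝ) < m := by exact_mod_cast hm
  have hn' : (0 : ℝ) < n := by exact_mod_cast (lt_of_lt_of_le hm hmn)
  have hmn' : (m : ℝ) ≤ n := by exact_mod_cast hmn
  have hlog2 : 0 < Real.log 2 := Real.log_pos (by norm_num)
  have hpi := Real.pi_pos
  unfold B
  refine (Real.abs_cos_sub_cos_le _ _).trans ?_
  have h1 : Real.pi * Real.logb 2 n - Real.pi * Real.logb 2 m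
      = Real.pi / Real.log 2 * (Real.log (n / m)) := by
    rw [Real.log_div hn'.ne' hm'.ne']
    simp only [Real.logb]
    field_simp
  rw [h1, abs_mul, abs_of_pos (by positivity)]
  apply mul_le_mul_of_nonneg_left _ (by positivity)
  have h2 : 0 ≤ Real.log ((n : ℝ) / m) := by
    apply Real.log_nonneg
    rw [le_div_iff₀ hm']
    linarith
  rw [abs_of_nonneg h2]
  have h3 := Real.log_le_sub_one_of_pos (show (0 : ℝ) < n / m by positivity)
  have h4 : (n : ℝ) / m - 1 = ((n : ℝ) - m) / m := by field_simp
  linarith

lemma B_shift_tendsto (a c : ℕ) (hac : a ≤ c) :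
    Tendsto (fun d : ℕ => |B (c + d) - B (a + d)|) atTop (𝓝 0) := by
  have h1 : Tendsto (fun d : ℕ => Real.pi / Real.log 2 * (((c : ℝ) - a) / (d : ℝ))) atTop
      (𝓝 (Real.pi / Real.log 2 * 0)) := by
    apply Tendsto.const_mul
    exact tendsto_const_div_atTop_nhds_zero_nat _
  rw [mul_zero] at h1
  refine squeeze_zero' (Eventually.of_forall fun _ => abs_nonneg _) ?_ h1
  filter_upwards [eventually_ge_atTop 1] with d hd
  have hd' : (0 : ℝ) < d := by exact_mod_cast hd
  have h := B_sub_le (m := a + d) (n := c + d) (by omega) (by omega)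
  refine h.trans ?_
  have hlog2 : 0 < Real.log 2 := Real.log_pos (by norm_num)
  have hpi := Real.pi_pos
  apply mul_le_mul_of_nonneg_left _ (by positivity)
  push_cast
  have hca : (0 : ℝ) ≤ (c : ℝ) - a := by
    have : (a : ℝ) ≤ c := by exact_mod_cast hac
    linarith
  have e : ((c : ℝ) + d - (a + d)) = (c : ℝ) - a := by ring
  rw [e]
  apply div_le_div_of_nonneg_left hca hd'
  have : (0 : ℝ) ≤ a := by positivity
  linarith

/-! ### Basic facts on the shift, the metric and Birkhoff sums -/

section Basic

variable {A : Type*}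

lemma shift_iterate_apply (k : ℕ) (x : ℕ → A) (i : ℕ) : (shift^[k] x) i = x (k + i) := by
  induction k generalizing x i with
  | zero => simp
  | succ k ih =>
    rw [Function.iterate_succ_apply, ih]
    simp only [shift]
    congr 1
    omega

lemma seqDist_le {x y : ℕ → A} {m : ℕ} (h : ∀ i < m, x i = y i) :
    seqDist x y ≤ (1 / 2 : ℝ) ^ m := by
  unfold seqDist
  split_ifs with hxy
  · positivity
  · have hne : {i : ℕ | x i ≠ y i}.Nonempty := by
      by_contra hcon
      rw [Set.not_nonempty_iff_eq_empty] at hcon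
      apply hxy
      funext i
      by_contra hi
      have : i ∈ {i : ℕ | x i ≠ y i} := hi
      rw [hcon] at this
      exact this.elim
    have hmem := Nat.sInf_mem hne
    have hle : m ≤ sInf {i : ℕ | x i ≠ y i} := by
      by_contra hlt
      push Not at hlt
      exact hmem (h _ hlt)
    exact pow_le_pow_of_le_one (by norm_num) (by norm_num) hle

lemma eq_zero_of_seqDist_lt_one {x y : ℕ → A} (h : seqDist x y < 1) : x 0 = y 0 := by
  by_contra hne
  have hxy : x ≠ y := fun e => hne (by rw [e])
  unfold seqDist at h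
  rw [if_neg hxy] at h
  have : sInf {i : ℕ | x i ≠ y i} = 0 := by
    apply Nat.sInf_eq_zero.2
    left
    exact hne
  rw [this] at h
  norm_num at h

lemma birkhoff_add (f : (ℕ → A) → ℝ) (m n : ℕ) (x : ℕ → A) :
    birkhoff f (m + n) x = birkhoff f m x + birkhoff f n (shift^[m] x) := by
  unfold birkhoff
  rw [Finset.sum_range_add]
  congr 1
  apply Finset.sum_congr rfl
  intro k _
  rw [← Function.iterate_add_apply, Nat.add_comm k m]

lemma birkhoff_one (f : (ℕ → A) → ℝ) (x : ℕ → A) : birkhoff f 1 x = f x := by
  simp [birkhoff]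

lemma birkhoff_succ' (f : (ℕ → A) → ℝ) (n : ℕ) (x : ℕ → A) :
    birkhoff f (n + 1) x = f x + birkhoff f n (shift x) := by
  rw [Nat.add_comm, birkhoff_add, birkhoff_one]
  rfl

/-- The Walters property in terms of common initial segments. -/
lemma IsWalters.commonStart {h : (ℕ → A) → ℝ} (hh : IsWalters h) {κ : ℝ} (hκ : 0 < κ) :
    ∃ m₀ : ℕ, ∀ m ≥ m₀, ∀ n : ℕ, 1 ≤ n → ∀ x y : ℕ → A, (∀ i < n + m, x i = y i) →
      |birkhoff h n x - birkhoff h n y| < κ := by
  obtain ⟨ε, hε, H⟩ := hh κ hκ
  obtain ⟨m₀, hm₀⟩ := exists_pow_lt_of_lt_one hε (show (1 / 2 : ℝ) < 1 by norm_num)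
  refine ⟨m₀, fun m hm n hn x y hxy => H n hn x y fun k hk => ?_⟩
  refine lt_of_le_of_lt (seqDist_le (m := m) fun i hi => ?_) ?_
  · rw [shift_iterate_apply, shift_iterate_apply]
    exact hxy _ (by omega)
  · exact lt_of_le_of_lt (pow_le_pow_of_le_one (by norm_num) (by norm_num) hm) hm₀

/-- Birkhoff sums over a period of a weak coboundary vanish. -/
lemma birkhoff_eq_zero_of_mem_Wcob [TopologicalSpace A] {g : C(ℕ → A, ℝ)} (hg : g ∈ Wcob A)
    {n : ℕ} {x : ℕ → A} (hx : shift^[n] x = x) : birkhoff g n x = 0 := by
  have hclosed : IsClosed {g : C(ℕ → A, ℝ) | birkhoff g n x = 0} := by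
    apply isClosed_eq _ continuous_const
    unfold birkhoff
    apply continuous_finsetSum
    intro k _
    exact continuous_eval_const _
  have hsub : Cob A ⊆ {g : C(ℕ → A, ℝ) | birkhoff g n x = 0} := by
    rintro f ⟨q, hq⟩
    show birkhoff f n x = 0
    unfold birkhoff
    have : ∀ k ∈ Finset.range n, f (shift^[k] x) = q (shift^[k + 1] x) - q (shift^[k] x) := by
      intro k _
      rw [hq, Function.iterate_succ_apply']
    rw [Finset.sum_congr rfl this, Finset.sum_range_sub (fun k => q (shift^[k] x))]
    simp [hx]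
  exact closure_minimal hsub hclosed hg

end Basic

/-! ### The function `φ` -/

section Phi

variable {A : Type*} (z : A)

/-- Number of leading letters `z` of `x` (and `0` for the constant sequence `z`). -/
noncomputable def runLen (x : ℕ → A) : ℕ := sInf {i : ℕ | x i ≠ z}

/-- `u x = B (runLen x)`. -/
noncomputable def u (x : ℕ → A) : ℝ := B (runLen z x)

/-- The potential: `φ x = B p - B (p-1)` when `x` starts with exactly `p ≥ 1` letters `z`, and
`φ x = 0` when `x` does not start with `z` or is constant `z`. -/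
noncomputable def phi (x : ℕ → A) : ℝ := B (runLen z x) - B (runLen z x - 1)

variable {z}

lemma runLen_eq {x : ℕ → A} {n : ℕ} (h : ∀ k < n, x k = z) (hn : x n ≠ z) : runLen z x = n := by
  unfold runLen
  apply le_antisymm
  · exact Nat.sInf_le hn
  · have hmem := Nat.sInf_mem (⟨n, hn⟩ : {i : ℕ | x i ≠ z}.Nonempty)
    by_contra hlt
    push Not at hlt
    exact hmem (h _ hlt)

lemma runLen_const {x : ℕ → A} (h : ∀ k, x k = z) : runLen z x = 0 := by
  unfold runLen
  have : {i : ℕ | x i ≠ z} = ∅ := by
    ext i
    simp [h i]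
  rw [this]
  simp

lemma phi_of_ne {x : ℕ → A} (h : x 0 ≠ z) : phi z x = 0 := by
  have : runLen z x = 0 := runLen_eq (fun k hk => absurd hk (Nat.not_lt_zero k)) h
  simp [phi, this]

lemma phi_of_const {x : ℕ → A} (h : ∀ k, x k = z) : phi z x = 0 := by
  simp [phi, runLen_const h]

/-- a sequence is either constant `z` or starts with exactly `n` letters `z` for some `n` -/
lemma exists_run (z : A) (x : ℕ → A) :
    (∀ k, x k = z) ∨ ∃ n, (∀ k < n, x k = z) ∧ x n ≠ z := by
  by_cases h : ∀ k, x k = z
  · exact Or.inl h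
  · right
    push Not at h
    refine ⟨sInf {i : ℕ | x i ≠ z}, ?_, Nat.sInf_mem (s := {i : ℕ | x i ≠ z}) h⟩
    intro k hk
    by_contra hne
    exact absurd (Nat.sInf_le (s := {i : ℕ | x i ≠ z}) hne) (by omega)

lemma phi_of_eq {x : ℕ → A} (h : x 0 = z) : phi z x = u z x - u z (shift x) := by
  rcases exists_run z x with hc | ⟨n, hn1, hn2⟩
  · rw [phi_of_const hc]
    have : ∀ k, shift x k = z := fun k => hc (k + 1)
    simp [u, runLen_const hc, runLen_const this]
  · have hn0 : n ≠ 0 := by
      rintro rfl
      exact hn2 h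
    obtain ⟨m, rfl⟩ : ∃ m, n = m + 1 := ⟨n - 1, by omega⟩
    have h1 : runLen z x = m + 1 := runLen_eq hn1 hn2
    have h2 : runLen z (shift x) = m := runLen_eq (fun k hk => hn1 (k + 1) (by omega)) hn2
    simp [phi, u, h1, h2]

lemma abs_u_le (x : ℕ → A) : |u z x| ≤ 1 := abs_B_le _

/-- telescoping along a run of `z`s -/
lemma birkhoff_run {n : ℕ} {x : ℕ → A} (h : ∀ k < n, x k = z) :
    birkhoff (phi z) n x = u z x - u z (shift^[n] x) := by
  induction n generalizing x with
  | zero => simp [birkhoff]
  | succ n ih =>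
    rw [birkhoff_succ', phi_of_eq (h 0 (by omega)), ih (x := shift x)
      (fun k hk => h (k + 1) (by omega)), Function.iterate_succ_apply]
    ring

lemma phi_bowen_aux {n : ℕ} {x y : ℕ → A} (h : ∀ k < n, x k = y k) :
    |birkhoff (phi z) n x - birkhoff (phi z) n y| ≤ 4 := by
  induction n generalizing x y with
  | zero => simp [birkhoff]
  | succ n ih =>
    by_cases hz : ∀ k < n + 1, x k = z
    · rw [birkhoff_run hz, birkhoff_run (fun k hk => (h k hk) ▸ hz k hk)]
      have h1 := abs_le.1 (abs_u_le (z := z) x)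
      have h2 := abs_le.1 (abs_u_le (z := z) y)
      have h3 := abs_le.1 (abs_u_le (z := z) (shift^[n + 1] x))
      have h4 := abs_le.1 (abs_u_le (z := z) (shift^[n + 1] y))
      rw [abs_le]
      constructor <;> linarith [h1.1, h1.2, h2.1, h2.2, h3.1, h3.2, h4.1, h4.2]
    · have hxy : phi z x = phi z y := by
        rcases exists_run z x with hc | ⟨t, ht1, ht2⟩
        · exact absurd (fun k _ => hc k) hz
        · have htn : t < n + 1 := by
            by_contra hge
            exact hz fun k hk => ht1 k (by omega)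
          have e1 : runLen z x = t := runLen_eq ht1 ht2
          have e2 : runLen z y = t :=
            runLen_eq (fun k hk => (h k (by omega)) ▸ ht1 k hk) ((h t htn) ▸ ht2)
          simp [phi, e1, e2]
      rw [birkhoff_succ', birkhoff_succ', hxy]
      have := ih (x := shift x) (y := shift y) (fun k hk => h (k + 1) (by omega))
      simpa using this

lemma phi_isBowen (z : A) : IsBowen (phi z) := by
  refine ⟨4, by norm_num, 1, by norm_num, fun n _ x y h => phi_bowen_aux fun k hk => ?_⟩
  have := eq_zero_of_seqDist_lt_one (h k hk)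
  simpa [shift_iterate_apply] using this

lemma continuous_phi [TopologicalSpace A] [DiscreteTopology A] (z : A) :
    Continuous (phi z) := by
  rw [continuous_iff_continuousAt]
  intro x
  have hnhd : ∀ N : ℕ, {y : ℕ → A | ∀ i < N, y i = x i} ∈ 𝓝 x := by
    intro N
    exact (PiNat.isOpen_cylinder (fun _ => A) x N).mem_nhds (PiNat.self_mem_cylinder x N)
  rcases exists_run z x with hc | ⟨t, ht1, ht2⟩
  · -- at the constant sequence
    rw [ContinuousAt, phi_of_const hc, Metric.tendsto_nhds]
    intro ε hε
    have hB := B_shift_tendsto 0 1 (by omega)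
    rw [Metric.tendsto_atTop] at hB
    obtain ⟨N, hN⟩ := hB ε hε
    filter_upwards [hnhd (N + 1)] with y hy
    rcases exists_run z y with hcy | ⟨s, hs1, hs2⟩
    · rw [phi_of_const hcy]
      simpa using hε
    · have hs : N + 1 ≤ s := by
        by_contra hlt
        push Not at hlt
        exact hs2 (by rw [hy s hlt, hc s])
      have e : runLen z y = s := runLen_eq hs1 hs2
      have := hN (s - 1) (by omega)
      have e1 : 1 + (s - 1) = s := by omega
      rw [e1, zero_add, Real.dist_eq, sub_zero, abs_abs] at this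
      rw [Real.dist_eq, sub_zero]
      simpa [phi, e] using this
  · -- elsewhere `phi` is locally constant
    apply ContinuousAt.congr (f := fun _ => phi z x) continuousAt_const
    filter_upwards [hnhd (t + 1)] with y hy
    have e1 : runLen z x = t := runLen_eq ht1 ht2
    have e2 : runLen z y = t :=
      runLen_eq (fun k hk => by rw [hy k (by omega), ht1 k hk]) (by rw [hy t (by omega)]; exact ht2)
    simp [phi, e1, e2]

end Phi

/-! ### The obstruction -/

section Obstruction

variable {A : Type*}

/-- the periodic sequence with period `L` which is `b` at positions in `s` and `z` elsewhere -/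
def per (z b : A) (L : ℕ) (s : Finset ℕ) : ℕ → A := fun i => if i % L ∈ s then b else z

lemma per_periodic (z b : A) (L : ℕ) (s : Finset ℕ) : shift^[L] (per z b L s) = per z b L s := by
  funext i
  rw [shift_iterate_apply]
  simp [per]

lemma main_obstruction [TopologicalSpace A] {z b : A} (hb : b ≠ z)
    (φ h : C(ℕ → A, ℝ)) (hφ : ∀ x, φ x = phi z x) (hh : IsWalters h) (hw : φ - h ∈ Wcob A) :
    False := by
  obtain ⟨m₀, hm₀⟩ := hh.commonStart (show (0 : ℝ) < 1 / 2 by norm_num)
  -- parameters
  set a : ℕ := 2 ^ (2 * m₀) with ha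
  set c : ℕ := 2 ^ (2 * m₀ + 1) with hc
  have ham : m₀ ≤ a := by
    have : 2 * m₀ < 2 ^ (2 * m₀) := Nat.lt_two_pow_self
    omega
  have hac : a ≤ c := by
    rw [ha, hc]
    exact Nat.pow_le_pow_right (by norm_num) (by omega)
  have ha1 : 1 ≤ a := Nat.one_le_two_pow
  have hBa : B a = 1 := by
    rw [ha, B_two_pow]
    simp
  have hBc : B c = -1 := by
    rw [hc, B_two_pow, pow_succ]
    simp
  have hlim := B_shift_tendsto a c hac
  rw [Metric.tendsto_atTop] at hlim
  obtain ⟨d, hd⟩ := hlim 1 (by norm_num)
  have hd := hd d le_rfl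
  rw [Real.dist_eq, sub_zero, abs_abs] at hd
  -- periodic points
  set x1 := per z b (a + 1) {a} with hx1
  set x2 := per z b (c + d + 1) {c} with hx2
  set x3 := per z b (a + c + d + 2) {a, a + 1 + c} with hx3
  have p1 : shift^[a + 1] x1 = x1 := per_periodic _ _ _ _
  have p2 : shift^[c + d + 1] x2 = x2 := per_periodic _ _ _ _
  have p3 : shift^[a + c + d + 2] x3 = x3 := per_periodic _ _ _ _
  -- values of the periodic points
  have v1z : ∀ i < a, x1 i = z := by
    intro i hi
    have : i % (a + 1) = i := Nat.mod_eq_of_lt (by omega)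
    simp [hx1, per, this, hi.ne]
  have v1b : x1 a = b := by
    have : a % (a + 1) = a := Nat.mod_eq_of_lt (by omega)
    simp [hx1, per, this]
  have v1z' : ∀ i < a, x1 (a + 1 + i) = z := by
    intro i hi
    have : (a + 1 + i) % (a + 1) = i := by
      rw [Nat.add_mod_left]
      exact Nat.mod_eq_of_lt (by omega)
    simp [hx1, per, this, hi.ne]
  have v2 : ∀ i < c + d + 1, x2 i = if i = c then b else z := by
    intro i hi
    have : i % (c + d + 1) = i := Nat.mod_eq_of_lt (by omega)
    simp [hx2, per, this]
  have v2' : ∀ i < c + d + 1, x2 (c + d + 1 + i) = if i = c then b else z := by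
    intro i hi
    have : (c + d + 1 + i) % (c + d + 1) = i := by
      rw [Nat.add_mod_left]
      exact Nat.mod_eq_of_lt (by omega)
    simp [hx2, per, this]
  have v3 : ∀ i < a + c + d + 2, x3 i = if i = a ∨ i = a + 1 + c then b else z := by
    intro i hi
    have : i % (a + c + d + 2) = i := Nat.mod_eq_of_lt (by omega)
    simp [hx3, per, this]
  have v3' : ∀ i < a + c + d + 2, x3 (a + c + d + 2 + i) =
      if i = a ∨ i = a + 1 + c then b else z := by
    intro i hi
    have : (a + c + d + 2 + i) % (a + c + d + 2) = i := by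
      rw [Nat.add_mod_left]
      exact Nat.mod_eq_of_lt (by omega)
    simp [hx3, per, this]
  -- Birkhoff sums of `φ` along the periodic orbits
  have hfun : (φ : (ℕ → A) → ℝ) = phi z := funext hφ
  have s1 : birkhoff (phi z) (a + 1) x1 = B a - B 0 := by
    rw [birkhoff_add, birkhoff_run v1z, birkhoff_one, phi_of_ne (z := z) (x := shift^[a] x1)
      (by rw [shift_iterate_apply, add_zero, v1b]; exact hb)]
    have e1 : runLen z x1 = a := runLen_eq v1z (by rw [v1b]; exact hb)
    have e2 : runLen z (shift^[a] x1) = 0 :=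
      runLen_eq (by intro k hk; omega) (by rw [shift_iterate_apply, add_zero, v1b]; exact hb)
    simp [u, e1, e2]
  have s2 : birkhoff (phi z) (c + d + 1) x2 = B (c + d) - B 0 := by
    have hsplit : c + d + 1 = c + (1 + d) := by ring
    have hz1 : ∀ k < c, x2 k = z := by
      intro k hk
      rw [v2 k (by omega), if_neg (by omega)]
    have hbc : x2 c = b := by rw [v2 c (by omega), if_pos rfl]
    have hz2 : ∀ k < d, (shift^[1] (shift^[c] x2)) k = z := by
      intro k hk
      rw [shift_iterate_apply, shift_iterate_apply, v2 _ (by omega), if_neg (by omega)]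
    rw [hsplit, birkhoff_add, birkhoff_add, birkhoff_run hz1, birkhoff_one, birkhoff_run hz2,
      phi_of_ne (z := z) (x := shift^[c] x2)
        (by rw [shift_iterate_apply, add_zero, hbc]; exact hb)]
    have e1 : runLen z x2 = c := runLen_eq hz1 (by rw [hbc]; exact hb)
    have e2 : runLen z (shift^[c] x2) = 0 :=
      runLen_eq (by intro k hk; omega) (by rw [shift_iterate_apply, add_zero, hbc]; exact hb)
    have e3 : runLen z (shift^[1] (shift^[c] x2)) = c + d := by
      apply runLen_eq
      · intro k hk
        rw [shift_iterate_apply, shift_iterate_apply]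
        by_cases hkd : k < d
        · rw [v2 _ (by omega), if_neg (by omega)]
        · have : c + (1 + k) = c + d + 1 + (k - d) := by omega
          rw [this, v2' _ (by omega), if_neg (by omega)]
      · rw [shift_iterate_apply, shift_iterate_apply]
        have : c + (1 + (c + d)) = c + d + 1 + c := by omega
        rw [this, v2' _ (by omega), if_pos rfl]
        exact hb
    have e4 : shift^[d] (shift^[1] (shift^[c] x2)) = x2 := by
      rw [← Function.iterate_add_apply, ← Function.iterate_add_apply]
      have : d + 1 + c = c + d + 1 := by ring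
      rw [this]
      exact p2
    rw [e4]
    simp only [u, e1, e2, e3]
    ring
  have s3 : birkhoff (phi z) (a + c + d + 2) x3 = B c + B (a + d) - 2 * B 0 := by
    have hsplit : a + c + d + 2 = a + (1 + (c + (1 + d))) := by ring
    have hz1 : ∀ k < a, x3 k = z := by
      intro k hk
      rw [v3 k (by omega), if_neg (by omega)]
    have hb1 : x3 a = b := by rw [v3 a (by omega), if_pos (Or.inl rfl)]
    have hz2 : ∀ k < c, (shift^[1] (shift^[a] x3)) k = z := by
      intro k hk
      rw [shift_iterate_apply, shift_iterate_apply, v3 _ (by omega), if_neg (by omega)]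
    have hb2 : (shift^[1] (shift^[a] x3)) c = b := by
      rw [shift_iterate_apply, shift_iterate_apply, v3 _ (by omega), if_pos (by omega)]
    have hz3 : ∀ k < d, (shift^[1] (shift^[c] (shift^[1] (shift^[a] x3)))) k = z := by
      intro k hk
      rw [shift_iterate_apply, shift_iterate_apply, shift_iterate_apply, shift_iterate_apply,
        v3 _ (by omega), if_neg (by omega)]
    rw [hsplit, birkhoff_add, birkhoff_add, birkhoff_add, birkhoff_add, birkhoff_run hz1,
      birkhoff_one, birkhoff_run hz2, birkhoff_one, birkhoff_run hz3,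
      phi_of_ne (z := z) (x := shift^[a] x3)
        (by rw [shift_iterate_apply, add_zero, hb1]; exact hb),
      phi_of_ne (z := z) (x := shift^[c] (shift^[1] (shift^[a] x3)))
        (by rw [shift_iterate_apply, add_zero, hb2]; exact hb)]
    have e1 : runLen z x3 = a := runLen_eq hz1 (by rw [hb1]; exact hb)
    have e2 : runLen z (shift^[a] x3) = 0 :=
      runLen_eq (by intro k hk; omega) (by rw [shift_iterate_apply, add_zero, hb1]; exact hb)
    have e3 : runLen z (shift^[1] (shift^[a] x3)) = c := runLen_eq hz2 (by rw [hb2]; exact hb)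
    have e4 : runLen z (shift^[c] (shift^[1] (shift^[a] x3))) = 0 :=
      runLen_eq (by intro k hk; omega) (by rw [shift_iterate_apply, add_zero, hb2]; exact hb)
    have e5 : runLen z (shift^[1] (shift^[c] (shift^[1] (shift^[a] x3)))) = a + d := by
      apply runLen_eq
      · intro k hk
        rw [shift_iterate_apply, shift_iterate_apply, shift_iterate_apply, shift_iterate_apply]
        by_cases hkd : k < d
        · rw [v3 _ (by omega), if_neg (by omega)]
        · have : a + (1 + (c + (1 + k))) = a + c + d + 2 + (k - d) := by omega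
          rw [this, v3' _ (by omega), if_neg (by omega)]
      · rw [shift_iterate_apply, shift_iterate_apply, shift_iterate_apply, shift_iterate_apply]
        have : a + (1 + (c + (1 + (a + d)))) = a + c + d + 2 + a := by omega
        rw [this, v3' _ (by omega), if_pos (Or.inl rfl)]
        exact hb
    have e6 : shift^[d] (shift^[1] (shift^[c] (shift^[1] (shift^[a] x3)))) = x3 := by
      rw [← Function.iterate_add_apply, ← Function.iterate_add_apply,
        ← Function.iterate_add_apply, ← Function.iterate_add_apply]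
      have : d + 1 + c + 1 + a = a + c + d + 2 := by ring
      rw [this]
      exact p3
    rw [e6]
    simp only [u, e1, e2, e3, e4, e5]
    ring
  -- transfer to `h`
  have tr : ∀ {n : ℕ} {x : ℕ → A}, shift^[n] x = x → birkhoff h n x = birkhoff (phi z) n x := by
    intro n x hx
    have h0 := birkhoff_eq_zero_of_mem_Wcob hw hx
    have : birkhoff (φ - h : C(ℕ → A, ℝ)) n x = birkhoff (phi z) n x - birkhoff h n x := by
      unfold birkhoff
      rw [← Finset.sum_sub_distrib]
      apply Finset.sum_congr rfl
      intro k _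
      simp [hφ]
    rw [this] at h0
    linarith
  have t1 := tr p1
  have t2 := tr p2
  have t3 := tr p3
  rw [s1] at t1
  rw [s2] at t2
  rw [s3] at t3
  -- Walters estimates
  have w1 : |birkhoff h (a + 1) x3 - birkhoff h (a + 1) x1| < 1 / 2 := by
    apply hm₀ a ham (a + 1) (by omega)
    intro i hi
    by_cases hia : i < a + 1
    · rw [v3 i (by omega)]
      by_cases hia' : i = a
      · rw [if_pos (Or.inl hia'), hia', v1b]
      · rw [if_neg (by omega), v1z i (by omega)]
    · have : i = a + 1 + (i - (a + 1)) := by omega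
      rw [v3 i (by omega), if_neg (by omega), this, v1z' _ (by omega)]
  have w2 : |birkhoff h (c + d + 1) (shift^[a + 1] x3) - birkhoff h (c + d + 1) x2| < 1 / 2 := by
    apply hm₀ a ham (c + d + 1) (by omega)
    intro i hi
    rw [shift_iterate_apply]
    by_cases hic : i < c + d + 1
    · rw [v3 _ (by omega), v2 i hic]
      by_cases hic' : i = c
      · rw [if_pos (by omega), if_pos hic']
      · rw [if_neg (by omega), if_neg hic']
    · have e1 : a + 1 + i = a + c + d + 2 + (i - (c + d + 1)) := by omega
      have e2 : i = c + d + 1 + (i - (c + d + 1)) := by omega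
      rw [e1, v3' _ (by omega), if_neg (by omega)]
      rw [e2, v2' _ (by omega), if_neg (by omega)]
  have hsum : birkhoff h (a + c + d + 2) x3 =
      birkhoff h (a + 1) x3 + birkhoff h (c + d + 1) (shift^[a + 1] x3) := by
    rw [← birkhoff_add]
    congr 1
    ring
  rw [abs_lt] at w1 w2 hd
  rw [hBa, hBc] at *
  linarith [w1.1, w1.2, w2.1, w2.2, hd.1, hd.2]

end Obstruction

/-- **Main result.**  For every finite alphabet `A` with at least two letters (with the discrete
topology) there is a continuous Bowen function `φ` on the full shift `A^ℕ` such that `φ - h` is not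
a weak coboundary for every continuous Walters function `h`. -/
theorem result (A : Type*) [Finite A] [Nontrivial A] [TopologicalSpace A] [DiscreteTopology A] :
    ∃ φ : C(ℕ → A, ℝ), IsBowen φ ∧ ∀ h : C(ℕ → A, ℝ), IsWalters h → φ - h ∉ Wcob A := by
  obtain ⟨z, b, hzb⟩ := exists_pair_ne A
  refine ⟨⟨phi z, continuous_phi z⟩, phi_isBowen z, fun h hh hw => ?_⟩
  exact main_obstruction (z := z) (b := b) hzb.symm ⟨phi z, continuous_phi z⟩ h (fun _ => rfl) hh hw

end Pool.Agent.Results.MP_3e6e51_an.BowenNotWalters
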